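import Mathlib
import Pool.Agent.Lib.MP_4ffbdc_co.Main

set_option autoImplicit false

namespace Pool.Agent.Lib.MP_4ffbdc_co.Old.LinearBound

universe u v

/-- `G` is `k`-critical: its chromatic number is `k`, and every proper subgraph has a smaller one. -/
def IsCritical {V : Type u} (G : SimpleGraph V) (k : ℕ) : Prop :=
  G.chromaticNumber = (k : ℕ∞) ∧
    ∀ G' : G.Subgraph, G' ≠ ⊤ → G'.coe.chromaticNumber < (k : ℕ∞)

theorem lt_of_hom {V : Type u} {W : Type v} {A : SimpleGraph V} {B : SimpleGraph W} (f : A →g B)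
    {k : ℕ∞} (h : B.chromaticNumber < k) : A.chromaticNumber < k :=
  lt_of_le_of_lt (SimpleGraph.chromaticNumber_mono_of_hom f) h

theorem edge_of_critical {V : Type u} {G : SimpleGraph V} {k : ℕ} (h : IsCritical G k)
    (a b : V) (hab : G.Adj a b) : (G.deleteEdges {s(a, b)}).chromaticNumber < (k : ℕ∞) := by
  have hne : ((⊤ : G.Subgraph).deleteEdges {s(a, b)}) ≠ ⊤ := by
    intro he
    have h1 : ((⊤ : G.Subgraph).deleteEdges {s(a, b)}).Adj a b := by
      rw [he]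
      exact hab
    simp at h1
  refine lt_of_hom (B := ((⊤ : G.Subgraph).deleteEdges {s(a, b)}).coe)
    ⟨fun x => ⟨x, by simp⟩, ?_⟩ (h.2 _ hne)
  intro x y hxy
  rw [SimpleGraph.deleteEdges_adj] at hxy
  show ((⊤ : G.Subgraph).deleteEdges {s(a, b)}).Adj x y
  rw [SimpleGraph.Subgraph.deleteEdges_adj]
  exact hxy

theorem vertex_of_critical {V : Type u} {G : SimpleGraph V} {k : ℕ} (h : IsCritical G k)
    (a : V) : (G.induce ({a}ᶜ : Set V)).chromaticNumber < (k : ℕ∞) := by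
  have hne : ((⊤ : G.Subgraph).induce ({a}ᶜ : Set V)) ≠ ⊤ := by
    intro he
    have h1 : a ∈ ((⊤ : G.Subgraph).induce ({a}ᶜ : Set V)).verts := by
      rw [he]
      trivial
    simp at h1
  refine lt_of_hom (B := ((⊤ : G.Subgraph).induce ({a}ᶜ : Set V)).coe)
    ⟨fun x => ⟨x.1, x.2⟩, ?_⟩ (h.2 _ hne)
  intro x y hxy
  exact ⟨x.2, y.2, hxy⟩

theorem critical_of_deletions {V : Type u} {G : SimpleGraph V} {k : ℕ}
    (h1 : G.chromaticNumber = (k : ℕ∞))
    (h2 : ∀ a b : V, G.Adj a b → (G.deleteEdges {s(a, b)}).chromaticNumber < (k : ℕ∞))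
    (h3 : ∀ a : V, (G.induce ({a}ᶜ : Set V)).chromaticNumber < (k : ℕ∞)) : IsCritical G k := by
  refine ⟨h1, fun G' hG' => ?_⟩
  by_cases hv : ∀ a : V, a ∈ G'.verts
  · have he : ∃ a b : V, G.Adj a b ∧ ¬ G'.Adj a b := by
      by_contra hc
      apply hG'
      refine SimpleGraph.Subgraph.ext ?_ ?_
      · ext a
        simpa using hv a
      · ext a b
        refine ⟨fun h => G'.adj_sub h, fun h => ?_⟩
        by_contra hn
        exact hc ⟨a, b, h, hn⟩
    obtain ⟨a, b, hab, hn⟩ := he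
    refine lt_of_hom (B := G.deleteEdges {s(a, b)}) ⟨fun x => x.1, ?_⟩ (h2 a b hab)
    intro x y hxy
    have hxy' : G'.Adj x.1 y.1 := hxy
    rw [SimpleGraph.deleteEdges_adj]
    refine ⟨G'.adj_sub hxy', fun hm => hn ?_⟩
    rw [Set.mem_singleton_iff, Sym2.eq_iff] at hm
    rcases hm with ⟨e1, e2⟩ | ⟨e1, e2⟩
    · rw [← e1, ← e2]
      exact hxy'
    · rw [← e1, ← e2]
      exact hxy'.symm
  · obtain ⟨a, ha⟩ := not_forall.mp hv
    refine lt_of_hom (B := G.induce ({a}ᶜ : Set V))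
      ⟨fun x => ⟨x.1, fun hx => ha (by rw [← Set.mem_singleton_iff.mp hx]; exact x.2)⟩, ?_⟩ (h3 a)
    intro x y hxy
    have hxy' : G'.Adj x.1 y.1 := hxy
    exact G'.adj_sub hxy'

/-- For `k ≥ 4`, a nonempty finite graph `H` contained in some finite `k`-critical graph is contained in
a `k`-critical graph with at most `42 (k - 1) |V(H)|` vertices. -/
theorem result (k : ℕ) (hk : 4 ≤ k) {V : Type u} {W : Type v} [Finite V] [Nonempty V] [Finite W]
    (H : SimpleGraph V) (G₀ : SimpleGraph W) (h₀ : IsCritical G₀ k) (hH : H.IsContained G₀) :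
    ∃ (m : ℕ) (G : SimpleGraph (Fin m)), IsCritical G k ∧ H.IsContained G ∧
      m ≤ 42 * (k - 1) * Nat.card V := by
  obtain ⟨q, rfl⟩ : ∃ q, k = q + 1 := ⟨k - 1, by omega⟩
  obtain ⟨cp⟩ := hH
  let eV : Fin (Nat.card V) ≃ V := (Finite.equivFin V).symm
  let eW : Fin (Nat.card W) ≃ W := (Finite.equivFin W).symm
  let H1 : SimpleGraph (Fin (Nat.card V)) := H.comap eV
  let G1 : SimpleGraph (Fin (Nat.card W)) := G₀.comap eW
  have a1 : G1.chromaticNumber = ((q + 1 : ℕ) : ℕ∞) := by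
    rw [← h₀.1]
    refine le_antisymm (SimpleGraph.chromaticNumber_mono_of_hom ⟨eW, fun h => h⟩)
      (SimpleGraph.chromaticNumber_mono_of_hom ⟨eW.symm, fun {x y} h => ?_⟩)
    show G₀.Adj (eW (eW.symm x)) (eW (eW.symm y))
    simpa using h
  have a2 : ∀ a b, G1.Adj a b →
      (G1.deleteEdges {s(a, b)}).chromaticNumber < ((q + 1 : ℕ) : ℕ∞) := by
    intro a b hab
    refine lt_of_hom (B := G₀.deleteEdges {s(eW a, eW b)}) ⟨eW, ?_⟩
      (edge_of_critical h₀ _ _ hab)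
    intro x y hxy
    rw [SimpleGraph.deleteEdges_adj] at hxy ⊢
    refine ⟨hxy.1, fun hm => hxy.2 ?_⟩
    rw [Set.mem_singleton_iff, Sym2.eq_iff] at hm ⊢
    rcases hm with ⟨e1, e2⟩ | ⟨e1, e2⟩
    · exact Or.inl ⟨eW.injective e1, eW.injective e2⟩
    · exact Or.inr ⟨eW.injective e1, eW.injective e2⟩
  have a3 : ∀ a, (G1.induce ({a}ᶜ : Set (Fin (Nat.card W)))).chromaticNumber <
      ((q + 1 : ℕ) : ℕ∞) := by
    intro a
    refine lt_of_hom (B := G₀.induce ({eW a}ᶜ : Set W))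
      ⟨fun x => ⟨eW x.1, fun hx => x.2 (eW.injective hx)⟩, ?_⟩ (vertex_of_critical h₀ _)
    intro x y hxy
    exact hxy
  let f : H1 →g G1 := ⟨fun x => eW.symm (cp.toHom (eV x)), fun {x y} h => by
    show G₀.Adj (eW (eW.symm _)) (eW (eW.symm _))
    rw [eW.apply_symm_apply, eW.apply_symm_apply]
    exact cp.toHom.map_rel h⟩
  have hf : Function.Injective f :=
    eW.symm.injective.comp (cp.injective.comp eV.injective)
  obtain ⟨m, G, b1, b2, b3, ⟨g, hg⟩, b5⟩ :=
    Pool.Agent.Lib.MP_4ffbdc_co.small_critical q (by omega) (Nat.card V) Nat.card_pos H1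
      (Nat.card W) G1 a1 a2 a3 f hf
  refine ⟨m, G, critical_of_deletions b1 b2 b3, ⟨⟨⟨fun x => g (eV.symm x), fun {x y} h => ?_⟩,
    hg.comp eV.symm.injective⟩⟩, by simpa using b5⟩
  apply g.map_rel
  show H.Adj (eV (eV.symm x)) (eV (eV.symm y))
  simpa using h

end Pool.Agent.Lib.MP_4ffbdc_co.Old.LinearBound
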